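import Mathlib

/-!
# Convolution of weighted summable functions on the nonnegative rationals
-/

set_option autoImplicit false

namespace Pool.Agent.TH626.PR

open Filter Topology

variable {w : ℚ → ℝ} (hw : ∀ q, 0 < w q)
  (hmul : ∀ s t : ℚ, 0 ≤ s → 0 ≤ t → w (s + t) ≤ w s * w t)

/-- the pairs `(s, t)` as pairs `(s, t - s)` -/
def sh : ℚ × ℚ ≃ ℚ × ℚ where
  toFun p := (p.1, p.2 - p.1)
  invFun p := (p.1, p.2 + p.1)
  left_inv p := by simp
  right_inv p := by simp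

include hw hmul

lemma summable_pairs {a h : ℚ → ℂ} (ha0 : ∀ q, q < 0 → a q = 0) (hh0 : ∀ q, q < 0 → h q = 0)
    (ha : Summable (fun q : ℚ => ‖a q‖ * w q)) (hh : Summable (fun q : ℚ => ‖h q‖ * w q)) :
    Summable (fun p : ℚ × ℚ => ‖a p.1‖ * ‖h (p.2 - p.1)‖ * w p.2) := by
  have h1 : Summable (fun p : ℚ × ℚ => (‖a p.1‖ * w p.1) * (‖h p.2‖ * w p.2)) :=
    ha.mul_of_nonneg hh (fun q => mul_nonneg (norm_nonneg _) (hw q).le)
      (fun q => mul_nonneg (norm_nonneg _) (hw q).le)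
  have h2 := (sh.summable_iff).2 h1
  refine Summable.of_nonneg_of_le (fun p => ?_) (fun p => ?_) h2
  · exact mul_nonneg (mul_nonneg (norm_nonneg _) (norm_nonneg _)) (hw _).le
  · show ‖a p.1‖ * ‖h (p.2 - p.1)‖ * w p.2 ≤
      (‖a p.1‖ * w p.1) * (‖h (p.2 - p.1)‖ * w (p.2 - p.1))
    rcases lt_or_ge p.1 0 with h3 | h3
    · rw [ha0 _ h3]
      simp
    · rcases lt_or_ge (p.2 - p.1) 0 with h4 | h4
      · rw [hh0 _ h4]
        simp
      · have h5 := hmul p.1 (p.2 - p.1) h3 h4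
        rw [add_sub_cancel] at h5
        calc ‖a p.1‖ * ‖h (p.2 - p.1)‖ * w p.2
            ≤ ‖a p.1‖ * ‖h (p.2 - p.1)‖ * (w p.1 * w (p.2 - p.1)) :=
              mul_le_mul_of_nonneg_left h5 (mul_nonneg (norm_nonneg _) (norm_nonneg _))
          _ = _ := by ring

lemma summable_section {a h : ℚ → ℂ} (ha0 : ∀ q, q < 0 → a q = 0) (hh0 : ∀ q, q < 0 → h q = 0)
    (ha : Summable (fun q : ℚ => ‖a q‖ * w q)) (hh : Summable (fun q : ℚ => ‖h q‖ * w q)) (t : ℚ) :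
    Summable (fun s : ℚ => ‖a s * h (t - s)‖) := by
  have h1 := (summable_pairs hw hmul ha0 hh0 ha hh)
  have h2 : Summable (fun s : ℚ => ‖a s‖ * ‖h (t - s)‖ * w t) :=
    h1.comp_injective (i := fun s : ℚ => (s, t)) (fun x y hxy => congrArg Prod.fst hxy)
  have h3 := h2.mul_right (w t)⁻¹
  refine h3.congr (fun s => ?_)
  rw [norm_mul, mul_inv_cancel_right₀ (hw t).ne']

lemma conv_neg {a h : ℚ → ℂ} (ha0 : ∀ q, q < 0 → a q = 0) (hh0 : ∀ q, q < 0 → h q = 0)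
    (t : ℚ) (ht : t < 0) : ∑' s : ℚ, a s * h (t - s) = 0 := by
  have : (fun s : ℚ => a s * h (t - s)) = fun _ => 0 := by
    funext s
    rcases lt_or_ge s 0 with h1 | h1
    · rw [ha0 s h1, zero_mul]
    · rw [hh0 _ (by linarith), mul_zero]
  rw [this, tsum_zero]

lemma conv_summable {a h : ℚ → ℂ} (ha0 : ∀ q, q < 0 → a q = 0) (hh0 : ∀ q, q < 0 → h q = 0)
    (ha : Summable (fun q : ℚ => ‖a q‖ * w q)) (hh : Summable (fun q : ℚ => ‖h q‖ * w q)) :
    Summable (fun t : ℚ => ‖∑' s : ℚ, a s * h (t - s)‖ * w t) := by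
  have h1 := (summable_pairs hw hmul ha0 hh0 ha hh)
  have h2 : Summable (fun p : ℚ × ℚ => ‖a p.2‖ * ‖h (p.1 - p.2)‖ * w p.1) :=
    ((Equiv.prodComm ℚ ℚ).summable_iff).2 h1
  have h3 := h2.prod
  refine Summable.of_nonneg_of_le (fun t => mul_nonneg (norm_nonneg _) (hw t).le) (fun t => ?_) h3
  have h4 := summable_section hw hmul ha0 hh0 ha hh t
  calc ‖∑' s : ℚ, a s * h (t - s)‖ * w t ≤ (∑' s : ℚ, ‖a s * h (t - s)‖) * w t :=
        mul_le_mul_of_nonneg_right (norm_tsum_le_tsum_norm h4) (hw t).le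
    _ = ∑' s : ℚ, ‖a s‖ * ‖h (t - s)‖ * w t := by
        rw [← tsum_mul_right]
        exact tsum_congr fun s => by rw [norm_mul]

lemma conv_pairing {a h : ℚ → ℂ} (ha0 : ∀ q, q < 0 → a q = 0) (hh0 : ∀ q, q < 0 → h q = 0)
    (ha : Summable (fun q : ℚ => ‖a q‖ * w q)) (hh : Summable (fun q : ℚ => ‖h q‖ * w q))
    {th : ℚ → ℂ} {C : ℝ} (hth : ∀ t, 0 ≤ t → ‖th t‖ ≤ C * w t) :
    ∑' t : ℚ, (∑' s : ℚ, a s * h (t - s)) * th t =
      ∑' s : ℚ, a s * ∑' q : ℚ, h q * th (q + s) := by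
  have h1 := (summable_pairs hw hmul ha0 hh0 ha hh).mul_left C
  have h2 : Summable (fun p : ℚ × ℚ => a p.1 * h (p.2 - p.1) * th p.2) := by
    refine Summable.of_norm_bounded h1 (fun p => ?_)
    rcases lt_or_ge p.1 0 with h3 | h3
    · rw [ha0 _ h3]
      simp
    · rcases lt_or_ge (p.2 - p.1) 0 with h4 | h4
      · rw [hh0 _ h4]
        simp
      · rw [norm_mul, norm_mul]
        have h5 := hth p.2 (by linarith)
        calc ‖a p.1‖ * ‖h (p.2 - p.1)‖ * ‖th p.2‖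
            ≤ ‖a p.1‖ * ‖h (p.2 - p.1)‖ * (C * w p.2) :=
              mul_le_mul_of_nonneg_left h5 (mul_nonneg (norm_nonneg _) (norm_nonneg _))
          _ = _ := by ring
  have h6 : ∑' t : ℚ, (∑' s : ℚ, a s * h (t - s)) * th t =
      ∑' t : ℚ, ∑' s : ℚ, a s * h (t - s) * th t :=
    tsum_congr fun t => by rw [tsum_mul_right]
  rw [h6]
  have h7 := Summable.tsum_comm (f := fun s t : ℚ => a s * h (t - s) * th t) h2
  rw [h7]
  apply tsum_congr
  intro s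
  rw [← tsum_mul_left, ← (Equiv.addRight s).tsum_eq]
  apply tsum_congr
  intro q
  simp only [Equiv.coe_addRight, add_sub_cancel_right]
  ring

end Pool.Agent.TH626.PR
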