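import Pool.Agent.TH626.PR.Weight
import Pool.Agent.TH626.PR.Conv

/-!
# A nonstandard closed ideal
-/

set_option autoImplicit false

namespace Pool.Agent.TH626.PR

open Finset Filter Topology

/-- the functional -/
noncomputable def th (q : ℚ) : ℂ := if 1 ≤ q then ((psi (q - 1) : ℝ) : ℂ) else 0

lemma th_add {s : ℚ} (hs : 0 ≤ s) (v : ℚ) (hv : 0 ≤ v) : th (1 + v + s) = ((psi (s + v) : ℝ) : ℂ) := by
  unfold th
  rw [if_pos (by linarith), show 1 + v + s - 1 = s + v by ring]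

lemma norm_th_le (q : ℚ) : ‖th q‖ ≤ D 0 * om q := by
  have h0 : 0 ≤ D 0 * om q := mul_nonneg (D_pos _).le (om_pos _).le
  unfold th
  split_ifs with h1
  · rw [Complex.norm_real, Real.norm_eq_abs]
    rcases lt_or_ge q 2 with h2 | h2
    · rw [om_of_lt_two h1 h2]
      exact abs_psi_le_W _
    · rw [psi_ge_one (by linarith), abs_zero]
      exact h0
  · rw [norm_zero]
    exact h0

lemma norm_th_add_le {q s : ℚ} (hq : 0 ≤ q) (hs : 0 ≤ s) : ‖th (q + s)‖ ≤ (D 0 * om s) * om q := by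
  refine (norm_th_le _).trans ?_
  have := om_add_le q s hq hs
  calc D 0 * om (q + s) ≤ D 0 * (om q * om s) := mul_le_mul_of_nonneg_left this (D_pos _).le
    _ = _ := by ring

/-- membership in the weighted algebra -/
def Mem (h : ℚ → ℂ) : Prop := (∀ q : ℚ, q < 0 → h q = 0) ∧ Summable (fun q : ℚ => ‖h q‖ * om q)

lemma Mem.summable_th {h : ℚ → ℂ} (hh : Mem h) {s : ℚ} (hs : 0 ≤ s) :
    Summable (fun q : ℚ => h q * th (q + s)) := by
  refine Summable.of_norm_bounded (hh.2.mul_left (D 0 * om s)) (fun q => ?_)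
  rcases lt_or_ge q 0 with h1 | h1
  · rw [hh.1 q h1]
    simp
  · rw [norm_mul]
    calc ‖h q‖ * ‖th (q + s)‖ ≤ ‖h q‖ * ((D 0 * om s) * om q) :=
          mul_le_mul_of_nonneg_left (norm_th_add_le h1 hs) (norm_nonneg _)
      _ = _ := by ring

lemma Mem.norm_le {h : ℚ → ℂ} (hh : Mem h) {s : ℚ} (hs : 0 ≤ s) :
    ‖∑' q : ℚ, h q * th (q + s)‖ ≤ (D 0 * om s) * ∑' q : ℚ, ‖h q‖ * om q := by
  rw [← tsum_mul_left]
  have h2 := hh.2.mul_left (D 0 * om s)
  refine tsum_of_norm_bounded h2.hasSum (fun q => ?_)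
  rcases lt_or_ge q 0 with h1 | h1
  · rw [hh.1 q h1]
    simp
  · rw [norm_mul]
    calc ‖h q‖ * ‖th (q + s)‖ ≤ ‖h q‖ * ((D 0 * om s) * om q) :=
          mul_le_mul_of_nonneg_left (norm_th_add_le h1 hs) (norm_nonneg _)
      _ = _ := by ring

lemma Mem.add {f g : ℚ → ℂ} (hf : Mem f) (hg : Mem g) : Mem (f + g) := by
  refine ⟨fun q hq => by rw [Pi.add_apply, hf.1 q hq, hg.1 q hq, add_zero], ?_⟩
  refine Summable.of_nonneg_of_le (fun q => mul_nonneg (norm_nonneg _) (om_pos q).le) (fun q => ?_)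
    (hf.2.add hg.2)
  rw [← add_mul]
  exact mul_le_mul_of_nonneg_right (norm_add_le _ _) (om_pos q).le

lemma Mem.smul {f : ℚ → ℂ} (hf : Mem f) (c : ℂ) : Mem (c • f) := by
  refine ⟨fun q hq => by rw [Pi.smul_apply, hf.1 q hq, smul_zero], ?_⟩
  refine (hf.2.mul_left ‖c‖).congr (fun q => ?_)
  rw [Pi.smul_apply, norm_smul]
  ring

/-- the ideal -/
def I : Set (ℚ → ℂ) := {h | Mem h ∧ ∀ s : ℚ, 0 ≤ s → ∑' q : ℚ, h q * th (q + s) = 0}

lemma I_zero : (0 : ℚ → ℂ) ∈ I := by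
  refine ⟨⟨fun _ _ => rfl, ?_⟩, fun s _ => ?_⟩
  · simpa using (summable_zero : Summable (fun _ : ℚ => (0 : ℝ)))
  · simp

lemma I_add {f g : ℚ → ℂ} (hf : f ∈ I) (hg : g ∈ I) : f + g ∈ I := by
  refine ⟨hf.1.add hg.1, fun s hs => ?_⟩
  have h1 : (fun q : ℚ => (f + g) q * th (q + s)) =
      fun q => f q * th (q + s) + g q * th (q + s) := by
    funext q
    rw [Pi.add_apply]
    ring
  rw [h1, (hf.1.summable_th hs).tsum_add (hg.1.summable_th hs), hf.2 s hs, hg.2 s hs, add_zero]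

lemma I_smul (c : ℂ) {f : ℚ → ℂ} (hf : f ∈ I) : c • f ∈ I := by
  refine ⟨hf.1.smul c, fun s hs => ?_⟩
  have h1 : (fun q : ℚ => (c • f) q * th (q + s)) = fun q => c * (f q * th (q + s)) := by
    funext q
    rw [Pi.smul_apply, smul_eq_mul]
    ring
  rw [h1, tsum_mul_left, hf.2 s hs, mul_zero]

lemma I_conv {a : ℚ → ℂ} (ha : Mem a) {f : ℚ → ℂ} (hf : f ∈ I) :
    (fun t : ℚ => ∑' s : ℚ, a s * f (t - s)) ∈ I := by
  refine ⟨⟨fun t ht => conv_neg om_pos om_add_le ha.1 hf.1.1 t ht,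
    conv_summable om_pos om_add_le ha.1 hf.1.1 ha.2 hf.1.2⟩, fun v hv => ?_⟩
  have h1 := conv_pairing (w := om) (th := fun t => th (t + v)) (C := D 0 * om v) om_pos om_add_le
    ha.1 hf.1.1 ha.2 hf.1.2 (fun t ht => norm_th_add_le ht hv)
  rw [h1]
  have h2 : (fun s : ℚ => a s * ∑' q : ℚ, f q * th (q + s + v)) = fun _ => 0 := by
    funext s
    rcases lt_or_ge s 0 with h3 | h3
    · rw [ha.1 s h3, zero_mul]
    · have h4 := hf.2 (s + v) (by linarith)
      have h5 : (fun q : ℚ => f q * th (q + s + v)) = fun q => f q * th (q + (s + v)) := by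
        funext q
        rw [add_assoc]
      rw [h5, h4, mul_zero]
  rw [h2, tsum_zero]

lemma I_closed {f : ℚ → ℂ} (hf : Mem f)
    (h : ∀ ε : ℝ, 0 < ε → ∃ g ∈ I, ∑' q : ℚ, ‖f q - g q‖ * om q < ε) : f ∈ I := by
  refine ⟨hf, fun s hs => ?_⟩
  by_contra hne
  have hpos : 0 < ‖∑' q : ℚ, f q * th (q + s)‖ := norm_pos_iff.2 hne
  have hC : 0 < D 0 * om s := mul_pos (D_pos _) (om_pos _)
  obtain ⟨g, hg, hlt⟩ := h (‖∑' q : ℚ, f q * th (q + s)‖ / (D 0 * om s)) (div_pos hpos hC)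
  have hsub : Mem (f + (-1 : ℂ) • g) := hf.add (hg.1.smul _)
  have h1 := hsub.norm_le hs
  have h2 : ∑' q : ℚ, (f + (-1 : ℂ) • g) q * th (q + s) = ∑' q : ℚ, f q * th (q + s) := by
    have h3 : (fun q : ℚ => (f + (-1 : ℂ) • g) q * th (q + s)) =
        fun q => f q * th (q + s) - g q * th (q + s) := by
      funext q
      simp only [Pi.add_apply, Pi.smul_apply, smul_eq_mul]
      ring
    rw [h3, (hf.summable_th hs).tsum_sub (hg.1.summable_th hs), hg.2 s hs, sub_zero]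
  have h4 : (fun q : ℚ => ‖(f + (-1 : ℂ) • g) q‖ * om q) = fun q => ‖f q - g q‖ * om q := by
    funext q
    simp only [Pi.add_apply, Pi.smul_apply, smul_eq_mul]
    ring_nf
  rw [h2, h4] at h1
  rw [lt_div_iff₀ hC] at hlt
  linarith

/-- the support of the generator -/
def e (j : ℕ) : ℚ := 1 + if j = 0 then 0 else r j

lemma e_zero : e 0 = 1 := by simp [e]

lemma e_succ (j : ℕ) : e (j + 1) = 1 + r (j + 1) := by simp [e]

lemma e_injective : Function.Injective e := by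
  intro i j h
  rcases i with _ | i <;> rcases j with _ | j
  · rfl
  · rw [e_zero, e_succ] at h
    linarith [r_pos (j + 1)]
  · rw [e_zero, e_succ] at h
    linarith [r_pos (i + 1)]
  · rw [e_succ, e_succ] at h
    exact r_injective (by linarith)

/-- the generator `δ₁ + ∑ 2⁻ʲ δ_{1 + r j}` -/
noncomputable def f0 : ℚ → ℂ := Function.extend e (fun j : ℕ => (1 / 2 : ℂ) ^ j) 0

lemma f0_e (j : ℕ) : f0 (e j) = (1 / 2 : ℂ) ^ j := e_injective.extend_apply _ _ _

lemma f0_one : f0 1 = 1 := by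
  have := f0_e 0
  rwa [e_zero, pow_zero] at this

lemma f0_not_mem {q : ℚ} (hq : q ∉ Set.range e) : f0 q = 0 := by
  unfold f0
  rw [Function.extend_apply' _ _ _ hq]
  rfl

lemma e_ge_one (j : ℕ) : 1 ≤ e j := by
  rcases j with _ | j
  · rw [e_zero]
  · rw [e_succ]
    linarith [r_pos (j + 1)]

lemma r_lt_one (j : ℕ) : r (j + 1) < 1 := by
  have := room (m := j) (s := 0) (G j).zero_mem one_pos
  rwa [zero_add] at this

lemma f0_mem : Mem f0 := by
  refine ⟨fun q hq => f0_not_mem ?_, ?_⟩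
  · rintro ⟨j, rfl⟩
    linarith [e_ge_one j]
  · rw [← e_injective.summable_iff (fun q hq => by rw [f0_not_mem hq]; simp)]
    rw [← summable_nat_add_iff 1]
    have h1 : Summable (fun j : ℕ => (1 / 2 : ℝ) ^ (j + 1)) :=
      (summable_nat_add_iff 1).2 (summable_geometric_of_lt_one (by norm_num) (by norm_num))
    refine Summable.of_nonneg_of_le (fun j => ?_) (fun j => ?_) h1
    · exact mul_nonneg (norm_nonneg _) (om_pos _).le
    · simp only [Function.comp_apply]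
      rw [f0_e, norm_pow, e_succ, om_of_lt_two (by linarith [r_pos (j + 1)])
        (by linarith [r_lt_one j]), add_sub_cancel_left]
      have h2 := W_r j
      have h3 : ‖(1 / 2 : ℂ)‖ = 1 / 2 := by simp
      rw [h3]
      calc (1 / 2 : ℝ) ^ (j + 1) * W (r (j + 1)) ≤ (1 / 2 : ℝ) ^ (j + 1) * 1 :=
            mul_le_mul_of_nonneg_left h2 (by positivity)
        _ = _ := mul_one _

lemma f0_mem_I : f0 ∈ I := by
  refine ⟨f0_mem, fun s hs => ?_⟩
  have hsupp : Function.support (fun q : ℚ => f0 q * th (q + s)) ⊆ Set.range e := by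
    intro q hq
    by_contra hc
    apply hq
    show f0 q * th (q + s) = 0
    rw [f0_not_mem hc, zero_mul]
  rw [← e_injective.tsum_eq hsupp]
  have h1 : HasSum (fun j : ℕ => f0 (e (j + 1)) * th (e (j + 1) + s))
      (-(f0 (e 0) * th (e 0 + s))) := by
    have h2 := hasSum_psi s
    have h3 : HasSum (fun j : ℕ => (((1 / 2 : ℝ) ^ (j + 1) * psi (s + r (j + 1)) : ℝ) : ℂ))
        ((-psi s : ℝ) : ℂ) := by exact_mod_cast h2
    have h4 : (-(f0 (e 0) * th (e 0 + s))) = ((-psi s : ℝ) : ℂ) := by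
      rw [e_zero, f0_one, show (1 : ℚ) + s = 1 + 0 + s by ring, th_add hs 0 le_rfl]
      simp
    rw [h4]
    refine h3.congr_fun (fun j => ?_) |> id
    rw [f0_e, e_succ, th_add hs _ (r_pos _).le]
    push_cast
    ring
  have h5 := (hasSum_nat_add_iff 1 (f := fun j : ℕ => f0 (e j) * th (e j + s))).1 h1
  simp only [sum_range_one, neg_add_cancel] at h5
  exact h5.tsum_eq

/-- the point mass at `1` -/
noncomputable def dl : ℚ → ℂ := fun q => if q = 1 then 1 else 0

lemma dl_not_mem : dl ∉ I := by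
  intro h
  have h1 := h.2 0 le_rfl
  rw [tsum_eq_single (1 : ℚ) (fun q hq => by unfold dl; rw [if_neg hq, zero_mul])] at h1
  unfold dl at h1
  rw [if_pos rfl, one_mul, show (1 : ℚ) + 0 = 1 + 0 + 0 by ring, th_add le_rfl 0 le_rfl] at h1
  rw [add_zero, psi_zero] at h1
  norm_num at h1

lemma dl_mem : Mem dl := by
  refine ⟨fun q hq => ?_, ?_⟩
  · unfold dl
    rw [if_neg (by rintro rfl; linarith)]
  · apply summable_of_ne_finset_zero (s := {1})
    intro q hq
    unfold dl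
    rw [if_neg (by simpa using hq)]
    simp

end Pool.Agent.TH626.PR
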