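import Mathlib

/-!
# A function on the rationals with a self-similarity

Helper file for the nonstandard closed ideal of a weighted convolution algebra on the
nonnegative rationals.
-/

set_option autoImplicit false

namespace Pool.Agent.TH626.PR

open Finset

/-- the group of the rationals `z / (m + 1)!` -/
def G (m : ℕ) : AddSubgroup ℚ where
  carrier := {q | ∃ z : ℤ, q * ((m + 1).factorial : ℚ) = z}
  add_mem' := by
    rintro a b ⟨x, hx⟩ ⟨y, hy⟩
    exact ⟨x + y, by push_cast; rw [add_mul, hx, hy]⟩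
  zero_mem' := ⟨0, by simp⟩
  neg_mem' := by
    rintro a ⟨x, hx⟩
    exact ⟨-x, by push_cast; rw [neg_mul, hx]⟩

lemma mem_G {m : ℕ} {q : ℚ} : q ∈ G m ↔ ∃ z : ℤ, q * ((m + 1).factorial : ℚ) = z := Iff.rfl

lemma G_succ {m : ℕ} {q : ℚ} (h : q ∈ G m) : q ∈ G (m + 1) := by
  obtain ⟨z, hz⟩ := h
  refine ⟨z * (m + 2), ?_⟩
  rw [Nat.factorial_succ (m + 1)]
  push_cast
  rw [← hz]
  ring

lemma G_mono {m n : ℕ} (h : m ≤ n) {q : ℚ} (hq : q ∈ G m) : q ∈ G n := by
  induction h with
  | refl => exact hq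
  | step _ ih => exact G_succ ih

lemma exists_G (q : ℚ) : ∃ m : ℕ, q ∈ G m := by
  refine ⟨q.den, ?_⟩
  have hd : q.den ∣ (q.den + 1).factorial :=
    Nat.dvd_factorial q.den_pos (Nat.le_succ _)
  obtain ⟨k, hk⟩ := hd
  refine ⟨q.num * k, ?_⟩
  rw [hk]
  push_cast
  rw [← mul_assoc, Rat.mul_den_eq_num]

open Classical in
/-- the level of a rational -/
noncomputable def lev (q : ℚ) : ℕ := Nat.find (exists_G q)

lemma mem_lev (q : ℚ) : q ∈ G (lev q) := by
  classical
  unfold lev
  convert Nat.find_spec (exists_G q)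

lemma lev_le {q : ℚ} {m : ℕ} (h : q ∈ G m) : lev q ≤ m := by
  classical
  unfold lev
  convert Nat.find_min' (exists_G q) h

lemma mem_G_iff {q : ℚ} {m : ℕ} : q ∈ G m ↔ lev q ≤ m :=
  ⟨lev_le, fun h => G_mono h (mem_lev q)⟩

lemma lev_add_le (a b : ℚ) : lev (a + b) ≤ max (lev a) (lev b) :=
  lev_le ((G _).add_mem (G_mono (le_max_left _ _) (mem_lev a)) (G_mono (le_max_right _ _) (mem_lev b)))

lemma one_mem_G (m : ℕ) : (1 : ℚ) ∈ G m := ⟨((m + 1).factorial : ℤ), by simp⟩

lemma lev_sub_one (a : ℚ) : lev (a - 1) = lev a := by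
  apply le_antisymm
  · exact lev_le ((G _).sub_mem (mem_lev a) (one_mem_G _))
  · have := (G (lev (a - 1))).add_mem (mem_lev (a - 1)) (one_mem_G _)
    rw [sub_add_cancel] at this
    exact lev_le this

/-- the steps -/
def r (m : ℕ) : ℚ := 1 / ((m + 1).factorial : ℚ)

lemma r_pos (m : ℕ) : 0 < r m := by
  unfold r
  positivity

lemma r_mem (m : ℕ) : r m ∈ G m := ⟨1, by
  unfold r
  rw [one_div, inv_mul_cancel₀]
  · simp
  · exact_mod_cast (Nat.factorial_ne_zero _)⟩

lemma r_not_mem (m : ℕ) : r (m + 1) ∉ G m := by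
  rintro ⟨z, hz⟩
  unfold r at hz
  rw [Nat.factorial_succ (m + 1)] at hz
  push_cast at hz
  have hf : ((m + 1).factorial : ℚ) ≠ 0 := by exact_mod_cast (Nat.factorial_ne_zero _)
  have hm : ((m : ℚ) + 1 + 1) ≠ 0 := by positivity
  have h1 : (1 : ℚ) = z * ((m : ℚ) + 1 + 1) := by
    rw [← hz]
    field_simp
  have h2 : (1 : ℤ) = z * ((m : ℤ) + 1 + 1) := by exact_mod_cast h1
  have h3 : ((m : ℤ) + 1 + 1) ∣ 1 := ⟨z, by rw [mul_comm]; exact h2⟩
  have h4 := Int.le_of_dvd one_pos h3
  omega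

/-- there is room for a step of the next level below `1` -/
lemma room {m : ℕ} {s : ℚ} (hs : s ∈ G m) (h1 : s < 1) : s + r (m + 1) < 1 := by
  obtain ⟨z, hz⟩ := hs
  have hf : (0 : ℚ) < ((m + 1).factorial : ℚ) := by positivity
  have h2 : (z : ℚ) < ((m + 1).factorial : ℚ) := by
    rw [← hz]
    nlinarith
  have h3 : z < ((m + 1).factorial : ℤ) := by exact_mod_cast h2
  have h4 : z ≤ ((m + 1).factorial : ℤ) - 1 := by omega
  have h5 : (z : ℚ) ≤ ((m + 1).factorial : ℚ) - 1 := by exact_mod_cast h4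
  have h6 : r (m + 1) * ((m + 1).factorial : ℚ) < 1 := by
    unfold r
    rw [Nat.factorial_succ (m + 1)]
    push_cast
    rw [div_mul_eq_mul_div, one_mul, div_lt_one (by positivity)]
    nlinarith
  have h7 : (s + r (m + 1)) * ((m + 1).factorial : ℚ) < 1 * ((m + 1).factorial : ℚ) := by
    rw [add_mul, hz]
    linarith
  exact lt_of_mul_lt_mul_right h7 hf.le

open Classical in
/-- the approximations of the function -/
noncomputable def Psi : ℕ → ℚ → ℝ
  | 0 => fun p => if p = 0 then 1 else 0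
  | (m + 1) => fun p =>
      if p ∈ G m then Psi m p
      else if p - r (m + 1) ∈ G m ∧ p < 1 then
        -(Psi m (p - r (m + 1)) +
          ∑ j ∈ range m, (1 / 2 : ℝ) ^ (j + 1) * Psi m (p - r (m + 1) + r (j + 1))) * 2 ^ (m + 1)
      else 0

open Classical in
lemma Psi_succ_of_mem {m : ℕ} {p : ℚ} (h : p ∈ G m) : Psi (m + 1) p = Psi m p := by
  show (if p ∈ G m then Psi m p else _) = _
  rw [if_pos h]

lemma Psi_stable {m n : ℕ} (hmn : m ≤ n) {p : ℚ} (h : p ∈ G m) : Psi n p = Psi m p := by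
  induction hmn with
  | refl => rfl
  | step hk ih => rw [Psi_succ_of_mem (G_mono hk h), ih]

open Classical in
lemma Psi_ge_one (m : ℕ) {p : ℚ} (h : 1 ≤ p) : Psi m p = 0 := by
  induction m generalizing p with
  | zero =>
    show (if p = 0 then (1 : ℝ) else 0) = 0
    rw [if_neg]
    rintro rfl
    norm_num at h
  | succ m ih =>
    show (if p ∈ G m then Psi m p else if _ then _ else (0 : ℝ)) = 0
    split_ifs with h1 h2
    · exact ih h
    · exact absurd h2.2 (not_lt.2 h)
    · rfl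

/-- the bound for the function on the `m`-th level -/
noncomputable def B (m : ℕ) : ℝ := 2 ^ ((m + 1) ^ 2)

lemma one_le_B (m : ℕ) : 1 ≤ B m := one_le_pow₀ (by norm_num)

lemma B_mono {m n : ℕ} (h : m ≤ n) : B m ≤ B n :=
  pow_le_pow_right₀ (by norm_num) (Nat.pow_le_pow_left (by omega) 2)

lemma sum_half (m : ℕ) : ∑ j ∈ range m, (1 / 2 : ℝ) ^ (j + 1) = 1 - (1 / 2) ^ m := by
  induction m with
  | zero => simp
  | succ m ih => rw [sum_range_succ, ih]; ring

open Classical in
lemma abs_Psi_le (m : ℕ) (p : ℚ) : |Psi m p| ≤ B m := by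
  induction m generalizing p with
  | zero =>
    show |if p = 0 then (1 : ℝ) else 0| ≤ _
    have := one_le_B 0
    split_ifs <;> simp <;> linarith
  | succ m ih =>
    have hB := one_le_B (m + 1)
    have hB' := B_mono (Nat.le_succ m)
    show |if p ∈ G m then Psi m p else if _ then _ else (0 : ℝ)| ≤ _
    split_ifs with h1 h2
    · exact (ih p).trans hB'
    · rw [abs_mul, abs_neg]
      have h3 : |Psi m (p - r (m + 1)) +
          ∑ j ∈ range m, (1 / 2 : ℝ) ^ (j + 1) * Psi m (p - r (m + 1) + r (j + 1))| ≤ 2 * B m := by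
        refine (abs_add_le _ _).trans ?_
        have h4 : |∑ j ∈ range m, (1 / 2 : ℝ) ^ (j + 1) * Psi m (p - r (m + 1) + r (j + 1))| ≤
            ∑ j ∈ range m, (1 / 2 : ℝ) ^ (j + 1) * B m := by
          refine (abs_sum_le_sum_abs _ _).trans (sum_le_sum fun j _ => ?_)
          rw [abs_mul, abs_of_pos (by positivity)]
          exact mul_le_mul_of_nonneg_left (ih _) (by positivity)
        rw [← sum_mul, sum_half] at h4
        have h5 : (1 - (1 / 2 : ℝ) ^ m) * B m ≤ 1 * B m := by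
          apply mul_le_mul_of_nonneg_right _ (by linarith [one_le_B m])
          have : (0 : ℝ) < (1 / 2) ^ m := by positivity
          linarith
        have h6 := ih (p - r (m + 1))
        linarith
      have h7 : |(2 : ℝ) ^ (m + 1)| = 2 ^ (m + 1) := abs_of_pos (by positivity)
      rw [h7]
      calc _ ≤ (2 * B m) * 2 ^ (m + 1) := mul_le_mul_of_nonneg_right h3 (by positivity)
        _ = 2 ^ ((m + 1) ^ 2 + m + 2) := by
            unfold B
            ring
        _ ≤ B (m + 1) := by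
            unfold B
            apply pow_le_pow_right₀ (by norm_num)
            nlinarith
    · simp; linarith

/-- the function -/
noncomputable def psi (p : ℚ) : ℝ := Psi (lev p) p

lemma psi_eq {m : ℕ} {p : ℚ} (h : p ∈ G m) : psi p = Psi m p :=
  (Psi_stable (lev_le h) (mem_lev p)).symm

lemma psi_ge_one {p : ℚ} (h : 1 ≤ p) : psi p = 0 := Psi_ge_one _ h

lemma psi_zero : psi 0 = 1 := by
  rw [psi_eq (m := 0) (G 0).zero_mem]
  show (if (0 : ℚ) = 0 then (1 : ℝ) else 0) = 1
  simp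

lemma abs_psi_le {m : ℕ} {p : ℚ} (h : p ∈ G m) : |psi p| ≤ B m := by
  rw [psi_eq h]
  exact abs_Psi_le m p

/-- the partial sums -/
noncomputable def T (n : ℕ) (s : ℚ) : ℝ :=
  psi s + ∑ j ∈ range n, (1 / 2 : ℝ) ^ (j + 1) * psi (s + r (j + 1))

lemma T_succ (n : ℕ) (s : ℚ) :
    T (n + 1) s = T n s + (1 / 2 : ℝ) ^ (n + 1) * psi (s + r (n + 1)) := by
  unfold T
  rw [sum_range_succ]
  ring

open Classical in
lemma T_eq_zero {m : ℕ} {s : ℚ} (hs : s ∈ G m) (h1 : s < 1) : T (m + 1) s = 0 := by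
  have hroom := room hs h1
  have hmem : s + r (m + 1) ∈ G (m + 1) := (G _).add_mem (G_succ hs) (r_mem _)
  have hnot : s + r (m + 1) ∉ G m := by
    intro hc
    have := (G m).sub_mem hc hs
    rw [add_sub_cancel_left] at this
    exact r_not_mem m this
  have hval : psi (s + r (m + 1)) = -(T m s) * 2 ^ (m + 1) := by
    rw [psi_eq hmem]
    show (if s + r (m + 1) ∈ G m then _ else if _ then _ else (0 : ℝ)) = _
    rw [if_neg hnot, if_pos ⟨by rwa [add_sub_cancel_right], hroom⟩, add_sub_cancel_right]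
    congr 2
    unfold T
    rw [psi_eq hs]
    congr 1
    apply sum_congr rfl
    intro j hj
    rw [psi_eq (m := m)]
    apply (G m).add_mem hs
    apply G_mono _ (r_mem _)
    have := mem_range.1 hj
    omega
  rw [T_succ, hval, one_div, inv_pow]
  have : (2 : ℝ) ^ (m + 1) ≠ 0 := by positivity
  field_simp
  ring

lemma T_eq_zero_of_lt {n : ℕ} {s : ℚ} (hn : lev s < n) (h1 : s < 1) : T n s = 0 := by
  obtain ⟨m, rfl⟩ : ∃ m, n = m + 1 := ⟨n - 1, by omega⟩
  exact T_eq_zero (G_mono (by omega) (mem_lev s)) h1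

lemma psi_step_eq_zero {n : ℕ} {s : ℚ} (hn : lev s < n) (h1 : s < 1) : psi (s + r (n + 1)) = 0 := by
  have h2 := T_succ n s
  rw [T_eq_zero_of_lt hn h1, T_eq_zero_of_lt (Nat.lt_succ_of_lt hn) h1, zero_add] at h2
  have h3 : (1 / 2 : ℝ) ^ (n + 1) ≠ 0 := by positivity
  exact (mul_eq_zero.1 h2.symm).resolve_left h3

/-- the equation -/
lemma hasSum_psi (s : ℚ) :
    HasSum (fun j : ℕ => (1 / 2 : ℝ) ^ (j + 1) * psi (s + r (j + 1))) (-psi s) := by
  rcases lt_or_ge s 1 with h1 | h1
  · have h2 : HasSum (fun j : ℕ => (1 / 2 : ℝ) ^ (j + 1) * psi (s + r (j + 1)))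
        (∑ j ∈ range (lev s + 1), (1 / 2 : ℝ) ^ (j + 1) * psi (s + r (j + 1))) := by
      apply hasSum_sum_of_ne_finset_zero
      intro j hj
      rw [psi_step_eq_zero _ h1, mul_zero]
      have : ¬ j < lev s + 1 := fun h => hj (mem_range.2 h)
      omega
    have h3 := T_eq_zero (mem_lev s) h1
    unfold T at h3
    rw [show -psi s = ∑ j ∈ range (lev s + 1), (1 / 2 : ℝ) ^ (j + 1) * psi (s + r (j + 1)) by
      linarith]
    exact h2
  · have h2 : (fun j : ℕ => (1 / 2 : ℝ) ^ (j + 1) * psi (s + r (j + 1))) = fun _ => 0 := by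
      funext j
      rw [psi_ge_one (by linarith [r_pos (j + 1)]), mul_zero]
    rw [h2, psi_ge_one h1, neg_zero]
    exact hasSum_zero

/-- the bound which is uniform in the step -/
lemma abs_psi_step_le (j : ℕ) (s : ℚ) : |psi (s + r (j + 1))| ≤ B (lev s + 1) := by
  rcases lt_or_ge s 1 with h1 | h1
  · rcases le_or_gt j (lev s) with h2 | h2
    · apply abs_psi_le
      apply (G _).add_mem (G_succ (mem_lev s)) (G_mono (by omega) (r_mem _))
    · rw [psi_step_eq_zero h2 h1, abs_zero]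
      linarith [one_le_B (lev s + 1)]
  · rw [psi_ge_one (by linarith [r_pos (j + 1)]), abs_zero]
    linarith [one_le_B (lev s + 1)]

lemma r_injective : Function.Injective r := by
  intro m n h
  by_contra hne
  wlog hlt : m < n generalizing m n
  · exact this h.symm (fun h => hne h.symm) (by omega)
  obtain ⟨k, rfl⟩ : ∃ k, n = k + 1 := ⟨n - 1, by omega⟩
  apply r_not_mem k
  rw [← h]
  exact G_mono (by omega) (r_mem m)

end Pool.Agent.TH626.PR
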