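import Pool.Agent.TH626.PR.Psi

/-!
# The radical weight
-/

set_option autoImplicit false

namespace Pool.Agent.TH626.PR

open Finset Filter Topology

/-- the weight on `[0, 1)` -/
noncomputable def D (q : ℚ) : ℝ := B (lev q + 1)

lemma one_le_D (q : ℚ) : 1 ≤ D q := one_le_B _

lemma D_pos (q : ℚ) : 0 < D q := lt_of_lt_of_le one_pos (one_le_D q)

lemma B_lev_le_D (q : ℚ) : B (lev q) ≤ D q := B_mono (Nat.le_succ _)

lemma D_add_le (s t : ℚ) : D (s + t) ≤ D s * D t := by
  have h := lev_add_le s t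
  rcases le_total (lev s) (lev t) with h1 | h1
  · rw [max_eq_right h1] at h
    calc D (s + t) ≤ D t := B_mono (by omega)
      _ = 1 * D t := (one_mul _).symm
      _ ≤ D s * D t := mul_le_mul_of_nonneg_right (one_le_D s) (D_pos t).le
  · rw [max_eq_left h1] at h
    calc D (s + t) ≤ D s := B_mono (by omega)
      _ = D s * 1 := (mul_one _).symm
      _ ≤ D s * D t := mul_le_mul_of_nonneg_left (one_le_D t) (D_pos s).le

/-- the ratios whose supremum is the weight on `[1, 2)` -/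
noncomputable def ratio (s : ℚ) (v : {v : ℚ // 0 ≤ v}) : ℝ := |psi (s + v.1)| / D v.1

lemma ratio_nonneg (s : ℚ) (v : {v : ℚ // 0 ≤ v}) : 0 ≤ ratio s v :=
  div_nonneg (abs_nonneg _) (D_pos _).le

lemma ratio_le (s : ℚ) (v : {v : ℚ // 0 ≤ v}) : ratio s v ≤ B (lev s) := by
  unfold ratio
  rw [div_le_iff₀ (D_pos _)]
  have h := abs_psi_le (mem_lev (s + v.1))
  have h2 := lev_add_le s v.1
  rcases le_total (lev s) (lev v.1) with h1 | h1
  · rw [max_eq_right h1] at h2
    calc |psi (s + v.1)| ≤ B (lev (s + v.1)) := h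
      _ ≤ B (lev v.1) := B_mono h2
      _ ≤ D v.1 := B_lev_le_D _
      _ = 1 * D v.1 := (one_mul _).symm
      _ ≤ B (lev s) * D v.1 := mul_le_mul_of_nonneg_right (one_le_B _) (D_pos _).le
  · rw [max_eq_left h1] at h2
    calc |psi (s + v.1)| ≤ B (lev (s + v.1)) := h
      _ ≤ B (lev s) := B_mono h2
      _ = B (lev s) * 1 := (mul_one _).symm
      _ ≤ B (lev s) * D v.1 := mul_le_mul_of_nonneg_left (one_le_D _) (by linarith [one_le_B (lev s)])

instance : Nonempty {v : ℚ // 0 ≤ v} := ⟨⟨0, le_refl _⟩⟩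

lemma bdd (s : ℚ) : BddAbove (Set.range (ratio s)) := ⟨B (lev s), by
  rintro _ ⟨v, rfl⟩
  exact ratio_le s v⟩

/-- the weight on `[1, 2)`, shifted to `[0, 1)` -/
noncomputable def W (s : ℚ) : ℝ := max 1 (⨆ v, ratio s v)

lemma one_le_W (s : ℚ) : 1 ≤ W s := le_max_left _ _

lemma W_pos (s : ℚ) : 0 < W s := lt_of_lt_of_le one_pos (one_le_W s)

lemma ratio_le_W (s : ℚ) (v : {v : ℚ // 0 ≤ v}) : ratio s v ≤ W s :=
  (le_ciSup (bdd s) v).trans (le_max_right _ _)

lemma W_le_of {s : ℚ} {C : ℝ} (h1 : 1 ≤ C) (h : ∀ v, ratio s v ≤ C) : W s ≤ C :=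
  max_le h1 (ciSup_le h)

lemma W_le_B (s : ℚ) : W s ≤ B (lev s) := W_le_of (one_le_B _) (ratio_le s)

lemma abs_psi_le_W (s : ℚ) : |psi s| ≤ D 0 * W s := by
  have h := ratio_le_W s ⟨0, le_refl _⟩
  unfold ratio at h
  rw [div_le_iff₀ (D_pos _), add_zero] at h
  rw [mul_comm]
  exact h

lemma W_add_le (s : ℚ) {t : ℚ} (ht : 0 ≤ t) : W (s + t) ≤ W s * D t := by
  apply W_le_of
  · nlinarith [one_le_W s, one_le_D t]
  · intro v
    have h := ratio_le_W s ⟨t + v.1, add_nonneg ht v.2⟩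
    unfold ratio at h ⊢
    rw [div_le_iff₀ (D_pos _)] at h ⊢
    rw [add_assoc]
    refine h.trans ?_
    rw [mul_assoc]
    exact mul_le_mul_of_nonneg_left (D_add_le _ _) (W_pos s).le

/-- the weight on `[1, 2)` against the weight on `[0, 1)` -/
lemma W_le_mul (s t : ℚ) : W (s + t - 1) ≤ D s * D t := by
  refine (W_le_B _).trans ?_
  rw [lev_sub_one]
  exact (B_lev_le_D _).trans (D_add_le s t)

lemma W_r (j : ℕ) : W (r (j + 1)) ≤ 1 := by
  apply W_le_of le_rfl
  intro v
  unfold ratio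
  rw [div_le_iff₀ (D_pos _), one_mul, add_comm]
  exact abs_psi_step_le j v.1

/-- the weight -/
noncomputable def om (q : ℚ) : ℝ :=
  if q < 1 then D q else if q < 2 then W (q - 1) else Real.exp (-((q : ℝ) ^ 2))

lemma om_of_lt_one {q : ℚ} (h : q < 1) : om q = D q := if_pos h

lemma om_of_lt_two {q : ℚ} (h1 : 1 ≤ q) (h : q < 2) : om q = W (q - 1) := by
  unfold om
  rw [if_neg (not_lt.2 h1), if_pos h]

lemma om_of_two_le {q : ℚ} (h : 2 ≤ q) : om q = Real.exp (-((q : ℝ) ^ 2)) := by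
  unfold om
  rw [if_neg (by linarith), if_neg (not_lt.2 h)]

lemma om_pos (q : ℚ) : 0 < om q := by
  unfold om
  split_ifs
  · exact D_pos q
  · exact W_pos _
  · exact Real.exp_pos _

lemma one_le_om {q : ℚ} (h : q < 2) : 1 ≤ om q := by
  unfold om
  split_ifs
  · exact one_le_D q
  · exact one_le_W _

lemma om_add_le (s t : ℚ) (hs : 0 ≤ s) (ht : 0 ≤ t) : om (s + t) ≤ om s * om t := by
  wlog hst : s ≤ t generalizing s t
  · rw [add_comm, mul_comm]
    exact this t s ht hs (by linarith)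
  rcases lt_or_ge (s + t) 1 with h1 | h1
  · rw [om_of_lt_one h1, om_of_lt_one (by linarith), om_of_lt_one (by linarith)]
    exact D_add_le s t
  rcases lt_or_ge (s + t) 2 with h2 | h2
  · rw [om_of_lt_two h1 h2]
    have hs1 : s < 1 := by linarith
    rw [om_of_lt_one hs1]
    rcases lt_or_ge t 1 with h3 | h3
    · rw [om_of_lt_one h3]
      exact W_le_mul s t
    · rw [om_of_lt_two h3 (by linarith)]
      have := W_add_le (t - 1) hs
      rw [show t - 1 + s = s + t - 1 by ring] at this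
      rw [mul_comm]
      exact this
  · rw [om_of_two_le h2]
    have hsR : (0 : ℝ) ≤ (s : ℝ) := by exact_mod_cast hs
    have htR : (0 : ℝ) ≤ (t : ℝ) := by exact_mod_cast ht
    rcases lt_or_ge t 2 with h3 | h3
    · have h4 := one_le_om h3
      have h5 := one_le_om (q := s) (by linarith)
      have h6 : Real.exp (-(((s + t : ℚ) : ℝ) ^ 2)) ≤ 1 := by
        rw [Real.exp_le_one_iff]
        nlinarith [sq_nonneg ((s + t : ℚ) : ℝ)]
      nlinarith
    · rw [om_of_two_le h3]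
      push_cast
      rcases lt_or_ge s 2 with h4 | h4
      · have h5 := one_le_om h4
        have h6 : Real.exp (-(((s : ℝ) + t) ^ 2)) ≤ Real.exp (-((t : ℝ) ^ 2)) := by
          rw [Real.exp_le_exp]
          nlinarith [mul_nonneg hsR htR]
        have h7 := Real.exp_pos (-((t : ℝ) ^ 2))
        nlinarith
      · rw [om_of_two_le h4, ← Real.exp_add, Real.exp_le_exp]
        nlinarith [mul_nonneg hsR htR]

lemma om_radical (t : ℚ) (ht : 0 < t) :
    Tendsto (fun n : ℕ => om ((n : ℚ) * t) ^ ((1 : ℝ) / (n : ℝ))) atTop (𝓝 0) := by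
  have htR : (0 : ℝ) < (t : ℝ) := by exact_mod_cast ht
  have h1 : Tendsto (fun n : ℕ => Real.exp (-((n : ℝ) * (t : ℝ) ^ 2))) atTop (𝓝 0) := by
    apply Real.tendsto_exp_neg_atTop_nhds_zero.comp
    exact (tendsto_natCast_atTop_atTop (R := ℝ)).atTop_mul_const (by positivity)
  refine h1.congr' ?_
  obtain ⟨N, hN⟩ := exists_nat_gt (2 / t)
  filter_upwards [eventually_ge_atTop (max N 1)] with n hn
  have hn1 : 1 ≤ n := le_trans (le_max_right _ _) hn
  have hnN : N ≤ n := le_trans (le_max_left _ _) hn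
  have hnR : (0 : ℝ) < (n : ℝ) := by exact_mod_cast hn1
  have h2 : (2 : ℚ) ≤ (n : ℚ) * t := by
    have h3 : (N : ℚ) ≤ (n : ℚ) := by exact_mod_cast hnN
    have h4 : 2 / t < (n : ℚ) := lt_of_lt_of_le hN h3
    rw [div_lt_iff₀ ht] at h4
    exact h4.le
  rw [om_of_two_le h2, ← Real.exp_mul]
  congr 1
  push_cast
  field_simp

end Pool.Agent.TH626.PR
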